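import Pool.Agent.T9h29.HC.Spec2
import Pool.Agent.T9h22.HC.Small

/-!
# Project HC, round 2, piece SM2: the small `t`
-/

set_option autoImplicit false

namespace Pool.Agent.T9h8.HC

open Complex Filter Topology MeasureTheory Set
open Pool.Agent.R304.SG (Z)
open Pool.Agent.Y969.GP (ff)
open Pool.Agent.N879.PZ
open Pool.Agent.T9h29.HC
open Pool.Agent.T9h22.HC (Z_norm ff_cont ff_nonneg)

theorem bd (h : S_M4L) : ∃ (K : ℝ) (A : ℕ), 0 < K ∧ ∀ X c : ℝ, 3 ≤ X → 0 ≤ c → c ≤ X →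
    ‖∫ t in (0 : ℝ)..X, Z t * Z (t + c) ^ 2‖ ≤ K * X * Real.log X ^ A := by
  obtain ⟨C, A, hC, hM⟩ := h
  refine ⟨1 + 4 * C * 2 ^ A, A, by positivity, fun X c hX hc hcX => ?_⟩
  have hX0 : (0 : ℝ) < X := by linarith
  have hlog : 1 ≤ Real.log X := by
    rw [Real.le_log_iff_exp_le hX0]
    have := Real.exp_one_lt_d9
    linarith
  have hcf : Continuous fun u : ℝ => ff u ^ 2 := ff_cont.pow 2
  have hpt : ∀ t : ℝ, ‖Z t * Z (t + c) ^ 2‖ ≤ 1 + ff t ^ 2 + ff (t + c) ^ 2 := by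
    intro t
    rw [norm_mul, norm_pow, Z_norm (t + c), ← Z_norm t]
    nlinarith [sq_nonneg (‖Z t‖ - ff (t + c)), sq_nonneg (‖Z t‖ ^ 2 - 1), sq_nonneg (ff (t + c)),
      sq_nonneg (‖Z t‖ ^ 2)]
  have hi1 : ∀ a b : ℝ, IntervalIntegrable (fun u => ff u ^ 2) volume a b :=
    fun a b => hcf.intervalIntegrable a b
  have hcf2 : Continuous fun u : ℝ => ff (u + c) ^ 2 :=
    hcf.comp (continuous_id.add continuous_const)
  have h1 : ‖∫ t in (0 : ℝ)..X, Z t * Z (t + c) ^ 2‖ ≤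
      ∫ t in (0 : ℝ)..X, (1 + ff t ^ 2 + ff (t + c) ^ 2) := by
    apply intervalIntegral.norm_integral_le_of_norm_le (by linarith)
    · exact Filter.Eventually.of_forall fun t _ => hpt t
    · exact ((continuous_const.add hcf).add hcf2).intervalIntegrable _ _
  have h2 : ∫ t in (0 : ℝ)..X, (1 + ff t ^ 2 + ff (t + c) ^ 2) =
      X + (∫ t in (0 : ℝ)..X, ff t ^ 2) + ∫ t in c..(X + c), ff t ^ 2 := by
    rw [intervalIntegral.integral_add, intervalIntegral.integral_add,
      intervalIntegral.integral_comp_add_right (fun u => ff u ^ 2) c]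
    · simp
    · exact (continuous_const).intervalIntegrable _ _
    · exact hi1 _ _
    · exact ((continuous_const).add hcf).intervalIntegrable _ _
    · exact hcf2.intervalIntegrable _ _
  have h3 : ∫ t in (0 : ℝ)..X, ff t ^ 2 ≤ ∫ t in (0 : ℝ)..(2 * X), ff t ^ 2 := by
    apply intervalIntegral.integral_mono_interval le_rfl (by linarith) (by linarith)
    · exact Filter.Eventually.of_forall fun t => by positivity
    · exact hi1 _ _
  have h4 : ∫ t in c..(X + c), ff t ^ 2 ≤ ∫ t in (0 : ℝ)..(2 * X), ff t ^ 2 := by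
    apply intervalIntegral.integral_mono_interval hc (by linarith) (by linarith)
    · exact Filter.Eventually.of_forall fun t => by positivity
    · exact hi1 _ _
  have h5 := hM (2 * X) (by linarith)
  have h6 : Real.log (2 * X) ≤ 2 * Real.log X := by
    have h7 : Real.log (2 * X) ≤ Real.log (X ^ 2) := by
      apply Real.log_le_log (by linarith)
      nlinarith
    rw [Real.log_pow] at h7
    exact_mod_cast h7
  have h7 : 0 ≤ Real.log (2 * X) := Real.log_nonneg (by linarith)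
  have h8 : Real.log (2 * X) ^ A ≤ 2 ^ A * Real.log X ^ A := by
    rw [← mul_pow]
    exact pow_le_pow_left₀ h7 h6 A
  have h9 : 1 ≤ Real.log X ^ A := one_le_pow₀ hlog
  calc ‖∫ t in (0 : ℝ)..X, Z t * Z (t + c) ^ 2‖
      ≤ X + 2 * (C * (2 * X) * Real.log (2 * X) ^ A) := by
        rw [h2] at h1
        linarith
    _ ≤ X * Real.log X ^ A + 2 * (C * (2 * X) * (2 ^ A * Real.log X ^ A)) := by
        gcongr
        exact le_mul_of_one_le_right hX0.le h9
    _ = (1 + 4 * C * 2 ^ A) * X * Real.log X ^ A := by ring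

theorem sm20 (h : S_M4L) : S_SM2 := by
  obtain ⟨K, A, hK, hb⟩ := bd h
  refine ⟨K ^ 2, A * 2, by positivity, fun a U ha hU1 hUa => ?_⟩
  have ha0 : (0 : ℝ) < a := by linarith
  have hU0 : (0 : ℝ) < U := by linarith
  have hlog : 0 ≤ Real.log a := Real.log_nonneg (by linarith)
  have h1 : ‖∫ c in (0 : ℝ)..U, ‖∫ t in (0 : ℝ)..a, Z t * Z (t + c) ^ 2‖ ^ 2‖ ≤
      (K * a * Real.log a ^ A) ^ 2 * |U - 0| := by
    refine intervalIntegral.norm_integral_le_of_norm_le_const fun c hc => ?_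
    rw [uIoc_of_le hU0.le] at hc
    rw [norm_pow, norm_norm]
    exact pow_le_pow_left₀ (norm_nonneg _) (hb a c ha hc.1.le (hc.2.trans hUa)) 2
  rw [sub_zero, abs_of_pos hU0] at h1
  refine (le_abs_self _).trans ((Real.norm_eq_abs _).symm.le.trans (h1.trans ?_))
  have h2 : 0 ≤ (K * a * Real.log a ^ A) ^ 2 := sq_nonneg _
  calc (K * a * Real.log a ^ A) ^ 2 * U ≤ (K * a * Real.log a ^ A) ^ 2 * a :=
        mul_le_mul_of_nonneg_left hUa h2
    _ = K ^ 2 * a ^ 3 * Real.log a ^ (A * 2) := by rw [pow_mul]; ring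

theorem sm2 : S_SM2 := sm20 (t_M4L t_AFX t_CRD t_LT)

end Pool.Agent.T9h8.HC
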